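import Mathlib

namespace Pool.Agent.Results.MP_664517_co.Finite

open Finset

universe u

/-- `S` is a total dominating set: every vertex has a neighbour in `S`. -/
def IsTD {V : Type u} (G : SimpleGraph V) (S : Finset V) : Prop := ∀ v, ∃ s ∈ S, G.Adj v s

/-- The total domination number. -/
noncomputable def gammaT {V : Type u} (G : SimpleGraph V) : ℕ :=
  sInf {k | ∃ S : Finset V, S.card = k ∧ IsTD G S}

/-- 3-total-domination edge-critical graphs. -/
def Crit3 {V : Type u} (G : SimpleGraph V) : Prop :=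
  (∀ v, ∃ w, G.Adj v w) ∧ gammaT G = 3 ∧
    ∀ u v, u ≠ v → ¬ G.Adj u v → gammaT (G ⊔ SimpleGraph.edge u v) < 3

def TA {V : Type u} (G : SimpleGraph V) (u v : V) : Prop :=
  ∀ x, x ≠ u → x ≠ v → G.Adj x u ∨ G.Adj x v

def TT {V : Type u} (G : SimpleGraph V) (u w v : V) : Prop :=
  (∀ x, x ≠ v → G.Adj x u ∨ G.Adj x w) ∧ ¬ G.Adj v u ∧ ¬ G.Adj v w

def Star {V : Type u} (G : SimpleGraph V) : Prop :=
  ∀ u v, u ≠ v → ¬ G.Adj u v → TA G u v ∨ (∃ w, TT G u w v) ∨ (∃ w, TT G v w u)

lemma half {V : Type u} (G : SimpleGraph V) (u v w : V) (huv : u ≠ v)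
    (h : ∀ x, (G ⊔ SimpleGraph.edge u v).Adj x u ∨ (G ⊔ SimpleGraph.edge u v).Adj x w)
    (h1 : ¬ G.Adj v u) (h2 : ¬ G.Adj v w) : TA G u v ∨ ∃ w, TT G u w v := by
  by_cases hw : w = v
  · left
    subst hw
    intro x hxu hxw
    rcases h x with h | h
    · simp only [SimpleGraph.sup_adj, SimpleGraph.edge_adj] at h
      tauto
    · simp only [SimpleGraph.sup_adj, SimpleGraph.edge_adj] at h
      tauto
  · right
    refine ⟨w, fun x hx => ?_, h1, h2⟩
    rcases h x with h | h
    · simp only [SimpleGraph.sup_adj, SimpleGraph.edge_adj] at h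
      tauto
    · simp only [SimpleGraph.sup_adj, SimpleGraph.edge_adj] at h
      tauto

lemma TA.symm {V : Type u} {G : SimpleGraph V} {u v : V} (h : TA G u v) : TA G v u :=
  fun x h1 h2 => (h x h2 h1).symm

lemma star_of {V : Type u} [Fintype V] (G : SimpleGraph V) (h : Crit3 G) : Star G := by
  classical
  obtain ⟨h0, h3, hc⟩ := h
  intro u v huv hn
  have hlt := hc u v huv hn
  have hne : {k | ∃ S : Finset V, S.card = k ∧ IsTD (G ⊔ SimpleGraph.edge u v) S}.Nonempty := by
    refine ⟨_, univ, rfl, fun x => ?_⟩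
    obtain ⟨w, hw⟩ := h0 x
    exact ⟨w, mem_univ _, Or.inl hw⟩
  obtain ⟨S, hS, hT⟩ := Nat.sInf_mem hne
  have hS2 : S.card ≤ 2 := by unfold gammaT at hlt; omega
  obtain ⟨a, b, hab⟩ : ∃ a b, ∀ s ∈ S, s = a ∨ s = b := by
    obtain ⟨a, ha, -⟩ := hT u
    by_cases h1 : ∀ s ∈ S, s = a
    · exact ⟨a, a, fun s hs => Or.inl (h1 s hs)⟩
    · push Not at h1
      obtain ⟨b, hb, hba⟩ := h1
      refine ⟨a, b, fun s hs => ?_⟩
      by_contra hc
      push Not at hc
      have : ({a, b, s} : Finset V) ⊆ S := by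
        intro y hy
        simp only [mem_insert, mem_singleton] at hy
        rcases hy with rfl | rfl | rfl <;> assumption
      have h4 := card_le_card this
      rw [card_eq_three.2 ⟨a, b, s, hba.symm, hc.1.symm, hc.2.symm, rfl⟩] at h4
      omega
  have hall : ∀ x, (G ⊔ SimpleGraph.edge u v).Adj x a ∨ (G ⊔ SimpleGraph.edge u v).Adj x b := by
    intro x
    obtain ⟨s, hs, hx⟩ := hT x
    rcases hab s hs with rfl | rfl
    · exact Or.inl hx
    · exact Or.inr hx
  obtain ⟨x, hxa, hxb⟩ : ∃ x, ¬ G.Adj x a ∧ ¬ G.Adj x b := by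
    by_contra hc
    push Not at hc
    have hm : ({a, b} : Finset V).card ∈ {k | ∃ S : Finset V, S.card = k ∧ IsTD G S} := by
      refine ⟨_, rfl, fun x => ?_⟩
      by_cases hx : G.Adj x a
      · exact ⟨a, by simp, hx⟩
      · exact ⟨b, by simp, hc x hx⟩
    have h5 := Nat.sInf_le hm
    have h6 : ({a, b} : Finset V).card ≤ 2 := card_le_two
    unfold gammaT at h3
    omega
  have hsym : SimpleGraph.edge u v = SimpleGraph.edge v u := SimpleGraph.edge_comm u v
  rcases hall x with h | h
  · simp only [SimpleGraph.sup_adj, SimpleGraph.edge_adj] at h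
    rcases h with h | ⟨⟨rfl, rfl⟩ | ⟨rfl, rfl⟩, -⟩
    · exact absurd h hxa
    · rw [hsym] at hall
      rcases half G a x b huv.symm hall hxa hxb with h | h
      · exact Or.inl h.symm
      · exact Or.inr (Or.inr h)
    · rcases half G a x b huv hall hxa hxb with h | h
      · exact Or.inl h
      · exact Or.inr (Or.inl h)
  · simp only [SimpleGraph.sup_adj, SimpleGraph.edge_adj] at h
    rcases h with h | ⟨⟨rfl, rfl⟩ | ⟨rfl, rfl⟩, -⟩
    · exact absurd h hxb
    · rw [hsym] at hall
      rcases half G b x a huv.symm (fun y => (hall y).symm) hxb hxa with h | h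
      · exact Or.inl h.symm
      · exact Or.inr (Or.inr h)
    · rcases half G b x a huv (fun y => (hall y).symm) hxb hxa with h | h
      · exact Or.inl h
      · exact Or.inr (Or.inl h)

open Classical in
/-- In a sparse linear-size set some `w` outside `X` serves linearly many vertices with one target. -/
lemma popular {V : Type u} [Fintype V] (G : SimpleGraph V) (hG : Star G) (K m : ℕ) (hK : 1 ≤ K)
    (S X : Finset V) (hS : Fintype.card V ≤ K * S.card) (hX : X.card ≤ m)
    (hs : 4 * m + 8 ≤ S.card)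
    (hd : ∀ x ∈ S, 16 * K ^ 2 * (S.filter (fun y => G.Adj x y)).card < Fintype.card V) :
    ∃ w, w ∉ X ∧ ∃ v ∈ S, ¬ G.Adj v w ∧
      Fintype.card V ≤ 16 * K ^ 2 * (S.filter (fun u => TT G u w v)).card := by
  set n := Fintype.card V with hn
  set s := S.card with hsdef
  have hd' : ∀ x ∈ S, 16 * (S.filter (fun y => G.Adj x y)).card < s := by
    intro x hx
    have h1 := hd x hx
    set d := (S.filter (fun y => G.Adj x y)).card
    by_contra hc
    push Not at hc
    have : K * s ≤ K * (16 * d) := Nat.mul_le_mul_left _ hc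
    have : K * (16 * d) ≤ 16 * K ^ 2 * d := by nlinarith [Nat.zero_le (K * d)]
    omega
  have hA : ∀ u ∈ S, ∀ v ∈ S, ¬ TA G u v := by
    intro u hu v hv hT
    have hsub : S ⊆ {u, v} ∪ (S.filter (fun y => G.Adj u y) ∪ S.filter (fun y => G.Adj v y)) := by
      intro x hx
      simp only [mem_union, mem_insert, mem_singleton, mem_filter]
      by_cases h1 : x = u
      · tauto
      by_cases h2 : x = v
      · tauto
      rcases hT x h1 h2 with h | h
      · exact Or.inr (Or.inl ⟨hx, h.symm⟩)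
      · exact Or.inr (Or.inr ⟨hx, h.symm⟩)
    have h1 := card_le_card hsub
    have h2 := card_union_le ({u, v} : Finset V)
      (S.filter (fun y => G.Adj u y) ∪ S.filter (fun y => G.Adj v y))
    have h3 := card_union_le (S.filter (fun y => G.Adj u y)) (S.filter (fun y => G.Adj v y))
    have h4 : ({u, v} : Finset V).card ≤ 2 := card_le_two
    have h5 := hd' u hu
    have h6 := hd' v hv
    omega
  have hrow : ∀ u ∈ S, 15 * s ≤ 16 + 16 * (S.filter (fun v => ∃ w, TT G u w v)).card
      + 16 * (S.filter (fun v => ∃ w, TT G v w u)).card := by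
    intro u hu
    have hsub : S ⊆ {u} ∪ (S.filter (fun y => G.Adj u y) ∪ (S.filter (fun v => ∃ w, TT G u w v)
        ∪ S.filter (fun v => ∃ w, TT G v w u))) := by
      intro x hx
      simp only [mem_union, mem_singleton, mem_filter]
      by_cases h1 : x = u
      · tauto
      by_cases h2 : G.Adj u x
      · tauto
      rcases hG u x (Ne.symm h1) h2 with h | h | h
      · exact absurd h (hA u hu x hx)
      · tauto
      · tauto
    have h1 := card_le_card hsub
    have h2 := card_union_le ({u} : Finset V) (S.filter (fun y => G.Adj u y) ∪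
      (S.filter (fun v => ∃ w, TT G u w v) ∪ S.filter (fun v => ∃ w, TT G v w u)))
    have h3 := card_union_le (S.filter (fun y => G.Adj u y))
      (S.filter (fun v => ∃ w, TT G u w v) ∪ S.filter (fun v => ∃ w, TT G v w u))
    have h4 := card_union_le (S.filter (fun v => ∃ w, TT G u w v))
      (S.filter (fun v => ∃ w, TT G v w u))
    have h5 := hd' u hu
    rw [card_singleton] at h2
    omega
  have hsw : ∑ u ∈ S, (S.filter (fun v => ∃ w, TT G v w u)).card
      = ∑ u ∈ S, (S.filter (fun v => ∃ w, TT G u w v)).card := by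
    simp only [card_filter]
    exact sum_comm
  have hinj : ∀ u, (S.filter (fun v => ∃ w, TT G u w v)).card
      ≤ (univ.filter (fun w => ∃ v ∈ S, TT G u w v)).card := by
    intro u
    refine card_le_card_of_forall_subsingleton (fun v w => TT G u w v) ?_ ?_
    · intro v hv
      obtain ⟨hv, w, hw⟩ := mem_filter.1 hv
      exact ⟨w, mem_filter.2 ⟨mem_univ _, v, hv, hw⟩, hw⟩
    · intro w _ v hv v' hv'
      by_contra hne
      rcases hv'.2.1 v hne with h | h
      · exact hv.2.2.1 h
      · exact hv.2.2.2 h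
  have hsw2 : ∑ u ∈ S, (univ.filter (fun w => ∃ v ∈ S, TT G u w v)).card
      = ∑ w, (S.filter (fun u => ∃ v ∈ S, TT G u w v)).card := by
    simp only [card_filter]
    exact sum_comm
  set P := ∑ w, (S.filter (fun u => ∃ v ∈ S, TT G u w v)).card with hP
  have hlow : s * (15 * s) ≤ s * 16 + 32 * P := by
    have h1 := sum_le_sum hrow
    rw [sum_const, smul_eq_mul, sum_add_distrib, sum_add_distrib, sum_const, smul_eq_mul,
      ← mul_sum, ← mul_sum, hsw, ← hsdef] at h1
    have h2 : ∑ u ∈ S, (S.filter (fun v => ∃ w, TT G u w v)).card ≤ P := by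
      rw [← hsw2]
      exact sum_le_sum (fun u _ => hinj u)
    omega
  obtain ⟨w, hwX, hw⟩ : ∃ w, w ∉ X ∧
      2 * n ≤ 16 * K ^ 2 * (S.filter (fun u => ∃ v ∈ S, TT G u w v)).card := by
    by_contra hc
    push Not at hc
    have h1 : ∀ w ∈ (univ : Finset V), 16 * K ^ 2 * (S.filter (fun u => ∃ v ∈ S, TT G u w v)).card
        ≤ 2 * n + (if w ∈ X then 16 * K ^ 2 * s else 0) := by
      intro w _
      split_ifs with h
      · have : (S.filter (fun u => ∃ v ∈ S, TT G u w v)).card ≤ s := card_filter_le _ _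
        have := Nat.mul_le_mul_left (16 * K ^ 2) this
        omega
      · have := hc w h
        omega
    have h2 := sum_le_sum h1
    rw [← mul_sum, sum_add_distrib, sum_const, smul_eq_mul, card_univ, ← hn, ← hP,
      sum_ite_mem, univ_inter, sum_const, smul_eq_mul] at h2
    have h3 : X.card * (16 * K ^ 2 * s) ≤ m * (16 * K ^ 2 * s) := Nat.mul_le_mul_right _ hX
    have h4 : n * n ≤ (K * s) * (K * s) := Nat.mul_le_mul hS hS
    have h5 : K ^ 2 * (s * (15 * s)) ≤ K ^ 2 * (s * 16 + 32 * P) := Nat.mul_le_mul_left _ hlow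
    have h6 : K ^ 2 * s * (4 * m + 8) ≤ K ^ 2 * s * s := Nat.mul_le_mul_left _ hs
    have h8 : 0 < s := by omega
    have h7 : 0 < K ^ 2 * s * s := by positivity
    nlinarith [Nat.zero_le (K ^ 2 * s), Nat.zero_le (K ^ 2 * s * m)]
  have hn0 : 0 < n := by
    have : s ≤ n := card_le_univ S
    omega
  obtain ⟨u0, hu0⟩ : (S.filter (fun u => ∃ v ∈ S, TT G u w v)).Nonempty := by
    rw [← card_pos]
    by_contra hc
    have : (S.filter (fun u => ∃ v ∈ S, TT G u w v)).card = 0 := by omega
    rw [this] at hw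
    omega
  obtain ⟨-, v0, hv0, hT0⟩ := mem_filter.1 hu0
  refine ⟨w, hwX, v0, hv0, hT0.2.2, ?_⟩
  by_cases hall : ∀ u ∈ S.filter (fun u => ∃ v ∈ S, TT G u w v), TT G u w v0
  · have : (S.filter (fun u => ∃ v ∈ S, TT G u w v)).card
        ≤ (S.filter (fun u => TT G u w v0)).card :=
      card_le_card (fun u hu => mem_filter.2 ⟨(mem_filter.1 hu).1, hall u hu⟩)
    have := Nat.mul_le_mul_left (16 * K ^ 2) this
    omega
  · exfalso
    push Not at hall
    obtain ⟨u1, hu1, hn1⟩ := hall
    obtain ⟨-, v1, hv1, hT1⟩ := mem_filter.1 hu1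
    have hne : v1 ≠ v0 := fun h => hn1 (h ▸ hT1)
    have hsub : S.filter (fun u => ∃ v ∈ S, TT G u w v) ⊆
        S.filter (fun y => G.Adj v0 y) ∪ S.filter (fun y => G.Adj v1 y) := by
      intro u hu
      obtain ⟨hu, v, -, hT⟩ := mem_filter.1 hu
      simp only [mem_union, mem_filter]
      by_cases h : v0 = v
      · right
        exact ⟨hu, (hT.1 v1 (h ▸ hne)).resolve_right hT1.2.2⟩
      · left
        exact ⟨hu, (hT.1 v0 h).resolve_right hT0.2.2⟩
    have h1 := (card_le_card hsub).trans (card_union_le _ _)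
    have h2 := Nat.mul_le_mul_left (16 * K ^ 2) h1
    have h3 := hd v0 hv0
    have h4 := hd v1 hv1
    rw [mul_add] at h2
    omega

lemma main (k : ℕ) : ∀ K m : ℕ, ∃ N : ℕ, ∀ (V : Type u) [Fintype V] (G : SimpleGraph V),
    Star G → N ≤ Fintype.card V → ∀ S X : Finset V, Fintype.card V ≤ K * S.card → X.card ≤ m →
    ∃ Q R : Finset V, Q ⊆ S ∧ G.IsClique (Q : Set V) ∧ G.IsClique (R : Set V) ∧
      Q.card + R.card = k ∧ ∀ w ∈ R, w ∉ X ∧ ∃ u ∈ S, ¬ G.Adj w u := by
  classical
  induction k with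
  | zero =>
    intro K m
    exact ⟨0, fun V _ G _ _ S X _ _ => ⟨∅, ∅, by simp, by simp, by simp, by simp, by simp⟩⟩
  | succ k ih =>
    intro K m
    obtain ⟨N, hN⟩ := ih (16 * K ^ 2) (m + 1)
    refine ⟨N + K * (4 * m + 8) + 1, fun V _ G hG hn S X hS hX => ?_⟩
    have hK : 1 ≤ K := by
      rcases Nat.eq_zero_or_pos K with rfl | h
      · omega
      · exact h
    have hs : 4 * m + 8 ≤ S.card := by
      have : K * (4 * m + 8) ≤ K * S.card := by omega
      exact Nat.le_of_mul_le_mul_left this hK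
    by_cases hd : ∀ x ∈ S, 16 * K ^ 2 * (S.filter (fun y => G.Adj x y)).card < Fintype.card V
    · obtain ⟨w, hwX, v, hv, hvw, hc⟩ := popular G hG K m hK S X hS hX hs
        (fun x hx => by convert hd x hx)
      obtain ⟨Q, R, hQ, cQ, cR, hk, hR⟩ := hN V G hG (by omega) _ (insert v X) hc
        ((card_insert_le _ _).trans (by omega))
      have hadj : ∀ w' ∈ R, G.Adj w' w := by
        intro w' hw'
        obtain ⟨h1, u, hu, h2⟩ := hR w' hw'
        have hT := (mem_filter.1 hu).2
        exact (hT.1 w' (fun h => h1 (h ▸ mem_insert_self _ _))).resolve_left h2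
      have hwR : w ∉ R := fun h => (hadj w h).ne rfl
      refine ⟨Q, insert w R, hQ.trans (filter_subset _ _), cQ, ?_, ?_, ?_⟩
      · rw [coe_insert]
        exact cR.insert (fun b hb _ => (hadj b hb).symm)
      · rw [card_insert_of_notMem hwR]; omega
      · intro w' hw'
        rcases mem_insert.1 hw' with rfl | hw'
        · exact ⟨hwX, v, hv, fun h => hvw h.symm⟩
        · obtain ⟨h1, u, hu, h2⟩ := hR w' hw'
          exact ⟨fun h => h1 (mem_insert_of_mem h), u, (mem_filter.1 hu).1, h2⟩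
    · push Not at hd
      obtain ⟨x, hx, hc⟩ := hd
      obtain ⟨Q, R, hQ, cQ, cR, hk, hR⟩ := hN V G hG (by omega) _ X hc (by omega)
      have hadj : ∀ y ∈ Q, G.Adj x y := fun y hy => (mem_filter.1 (hQ hy)).2
      have hxQ : x ∉ Q := fun h => (hadj x h).ne rfl
      refine ⟨insert x Q, R, ?_, ?_, cR, ?_, ?_⟩
      · exact insert_subset hx (hQ.trans (filter_subset _ _))
      · rw [coe_insert]
        exact cQ.insert (fun b hb _ => hadj b hb)
      · rw [card_insert_of_notMem hxQ]; omega
      · intro w hw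
        obtain ⟨h1, u, hu, h2⟩ := hR w hw
        exact ⟨h1, u, (mem_filter.1 hu).1, h2⟩

lemma bound (p : ℕ) : ∃ N : ℕ, ∀ (V : Type u) [Fintype V] (G : SimpleGraph V),
    Crit3 G → G.CliqueFree p → Fintype.card V < N := by
  classical
  obtain ⟨N, hN⟩ := main.{u} (2 * p) 1 0
  refine ⟨N, fun V _ G hG hp => ?_⟩
  by_contra hc
  push Not at hc
  obtain ⟨Q, R, -, cQ, cR, hk, -⟩ := hN V G (star_of G hG) hc univ ∅ (by simp) (by simp)
  have key : ∀ T : Finset V, G.IsClique (T : Set V) → T.card < p := by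
    intro T hT
    by_contra h
    push Not at h
    obtain ⟨T', hT', hc'⟩ := exists_subset_card_eq h
    exact hp T' ⟨hT.subset (coe_subset.2 hT'), hc'⟩
  have := key Q cQ
  have := key R cR
  omega

/-- For every `p` there are only finitely many `K_p`-free 3ₜEC graphs up to isomorphism. -/
theorem result (p : ℕ) : ∃ F : Set (Σ n : ℕ, SimpleGraph (Fin n)), F.Finite ∧
    ∀ (V : Type) [Fintype V] (G : SimpleGraph V), Crit3 G → G.CliqueFree p →
      ∃ H ∈ F, Nonempty (G ≃g H.2) := by
  classical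
  obtain ⟨N, hN⟩ := bound.{0} p
  refine ⟨⋃ n ∈ Set.Iio N, Set.range (fun H : SimpleGraph (Fin n) => (⟨n, H⟩ : Σ n : ℕ, SimpleGraph (Fin n))),
    (Set.finite_Iio N).biUnion (fun n _ => Set.finite_range _), fun V _ G hG hp => ?_⟩
  refine ⟨⟨Fintype.card V, G.map (Fintype.equivFin V).toEmbedding⟩, ?_,
    ⟨SimpleGraph.Iso.map (Fintype.equivFin V) G⟩⟩
  simp only [Set.mem_iUnion]
  exact ⟨Fintype.card V, hN V G hG hp, _, rfl⟩

end Pool.Agent.Results.MP_664517_co.Finite
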